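import Pool.Agent.H51.MFQ.S1

/-!
# Board mfq (MP_84bfea_al), row ORE: `U(𝔤)` over `S(V)` for an abelian ideal `V`
-/

set_option autoImplicit false

open Module

namespace Pool.MFQ

attribute [local instance 100] LieRing.ofAssociativeRing

set_option linter.unusedSectionVars false

namespace OREaux

open MvPolynomial

/-- Sums of derivations. -/
theorem der_sum {σ ι : Type} (s : Finset ι)
    (f : ι → Derivation ℂ (MvPolynomial σ ℂ) (MvPolynomial σ ℂ)) (x : MvPolynomial σ ℂ) :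
    (∑ k ∈ s, f k) x = ∑ k ∈ s, f k x := by
  classical
  induction s using Finset.induction_on with
  | empty => rw [Finset.sum_empty, Finset.sum_empty]; rfl
  | insert a s ha ih => rw [Finset.sum_insert ha, Finset.sum_insert ha, Derivation.add_apply, ih]

section

variable {𝔤 : Type} [LieRing 𝔤] [LieAlgebra ℂ 𝔤]
variable {σ τ : Type} [Fintype σ] [Fintype τ]

/-- The `V`-part of an element, as a linear polynomial. -/
noncomputable def lin (b : Basis (σ ⊕ τ) ℂ 𝔤) (w : 𝔤) : MvPolynomial σ ℂ :=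
  ∑ m, C (b.repr w (Sum.inl m)) * X m

theorem lin_add (b : Basis (σ ⊕ τ) ℂ 𝔤) (w w' : 𝔤) : lin b (w + w') = lin b w + lin b w' := by
  unfold lin
  rw [← Finset.sum_add_distrib]
  refine Finset.sum_congr rfl fun m _ => ?_
  rw [map_add, Finsupp.add_apply, C_add, add_mul]

theorem lin_smul (b : Basis (σ ⊕ τ) ℂ 𝔤) (c : ℂ) (w : 𝔤) : lin b (c • w) = c • lin b w := by
  unfold lin
  rw [Finset.smul_sum]
  refine Finset.sum_congr rfl fun m _ => ?_
  rw [map_smul, Finsupp.smul_apply, smul_eq_mul, C_mul, mul_assoc, smul_eq_C_mul]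

theorem lin_zero (b : Basis (σ ⊕ τ) ℂ 𝔤) : lin b 0 = 0 := by
  unfold lin
  refine Finset.sum_eq_zero fun m _ => ?_
  rw [map_zero, Finsupp.zero_apply, C_0, zero_mul]

theorem lin_sum (b : Basis (σ ⊕ τ) ℂ 𝔤) {ι : Type} (s : Finset ι) (f : ι → 𝔤) :
    lin b (∑ i ∈ s, f i) = ∑ i ∈ s, lin b (f i) := by
  classical
  induction s using Finset.induction_on with
  | empty => rw [Finset.sum_empty, Finset.sum_empty, lin_zero]
  | insert a s ha ih => rw [Finset.sum_insert ha, Finset.sum_insert ha, lin_add, ih]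

theorem lin_sub (b : Basis (σ ⊕ τ) ℂ 𝔤) (w w' : 𝔤) : lin b (w - w') = lin b w - lin b w' := by
  have h : lin b (w - w' + w') = lin b (w - w') + lin b w' := lin_add b _ _
  rw [sub_add_cancel] at h
  rw [h, add_sub_cancel_right]

/-- Decomposition of an element. -/
theorem decomp (b : Basis (σ ⊕ τ) ℂ 𝔤) (w : 𝔤) :
    w = ∑ m, b.repr w (Sum.inl m) • b (Sum.inl m) + ∑ k, b.repr w (Sum.inr k) • b (Sum.inr k) := by
  have h := b.sum_repr w
  rw [Fintype.sum_sum_type] at h
  exact h.symm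

theorem decompV (V : LieIdeal ℂ 𝔤) (b : Basis (σ ⊕ τ) ℂ 𝔤) (hb : Adp V b) (w : 𝔤) (hw : w ∈ V) :
    w = ∑ m, b.repr w (Sum.inl m) • b (Sum.inl m) := by
  have h := decomp b w
  have h0 : ∑ k, b.repr w (Sum.inr k) • b (Sum.inr k) = 0 := by
    refine Finset.sum_eq_zero fun k _ => ?_
    rw [hb.2 w hw k, zero_smul]
  rw [h0, add_zero] at h
  exact h

theorem D_X (b : Basis (σ ⊕ τ) ℂ 𝔤) (i : τ) (l : σ) :
    DD b i (X l) = lin b ⁅b (Sum.inr i), b (Sum.inl l)⁆ := by
  unfold DD lin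
  rw [mkDerivation_X]

theorem D_lin (V : LieIdeal ℂ 𝔤) (b : Basis (σ ⊕ τ) ℂ 𝔤) (hb : Adp V b) (i : τ) (w : 𝔤)
    (hw : w ∈ V) : DD b i (lin b w) = lin b ⁅b (Sum.inr i), w⁆ := by
  conv_rhs => rw [decompV V b hb w hw]
  rw [lie_sum, lin_sum]
  unfold lin
  rw [map_sum]
  refine Finset.sum_congr rfl fun m _ => ?_
  have h := D_X b i m
  unfold lin at h
  rw [← smul_eq_C_mul, Derivation.map_smul, h]
  have h2 := lin_smul b (b.repr w (Sum.inl m)) ⁅b (Sum.inr i), b (Sum.inl m)⁆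
  unfold lin at h2
  rw [lie_smul, h2]

end

end OREaux

open OREaux MvPolynomial in
theorem t_ore (h1 : CEVStmt) : OREStmt := by
  intro 𝔤 _ _ V σ τ _ _ b hV hb
  obtain ⟨ev, hev, hevc⟩ := h1 (UniversalEnvelopingAlgebra ℂ 𝔤) σ
    (fun l => UniversalEnvelopingAlgebra.ι ℂ (b (Sum.inl l))) (by
      intro l m
      have h : UniversalEnvelopingAlgebra.ι ℂ ⁅b (Sum.inl l), b (Sum.inl m)⁆ =
          ⁅UniversalEnvelopingAlgebra.ι ℂ (b (Sum.inl l)),
            UniversalEnvelopingAlgebra.ι ℂ (b (Sum.inl m))⁆ := LieHom.map_lie _ _ _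
      rw [hV _ (hb.1 l) _ (hb.1 m), map_zero, LieRing.of_associative_ring_bracket] at h
      exact (sub_eq_zero.mp h.symm))
  have hbr : ∀ x y : 𝔤, UniversalEnvelopingAlgebra.ι ℂ x * UniversalEnvelopingAlgebra.ι ℂ y -
      UniversalEnvelopingAlgebra.ι ℂ y * UniversalEnvelopingAlgebra.ι ℂ x =
      UniversalEnvelopingAlgebra.ι ℂ ⁅x, y⁆ := by
    intro x y
    rw [LieHom.map_lie, LieRing.of_associative_ring_bracket]
  have hlin : ∀ w : 𝔤, ev (lin b w) =
      UniversalEnvelopingAlgebra.ι ℂ (∑ m, b.repr w (Sum.inl m) • b (Sum.inl m)) := by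
    intro w
    unfold lin
    rw [map_sum, map_sum]
    refine Finset.sum_congr rfl fun m _ => ?_
    rw [← smul_eq_C_mul, map_smul, hev, map_smul]
  have hmem : ∀ (i : τ) (w : 𝔤), w ∈ V → ⁅b (Sum.inr i), w⁆ ∈ V := by
    intro i w hw
    exact lie_mem_right ℂ 𝔤 V _ _ hw
  refine ⟨⟨ev, fun i => UniversalEnvelopingAlgebra.ι ℂ (b (Sum.inr i)), DD b, cc b, bb b,
    ?_, ?_, ?_⟩, hev, fun i => rfl, rfl, rfl, rfl⟩
  · intro i φ
    induction φ using MvPolynomial.induction_on with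
    | C a =>
      have h2 : (C a : MvPolynomial σ ℂ) = algebraMap ℂ (MvPolynomial σ ℂ) a := rfl
      rw [h2, AlgHom.commutes, Derivation.map_algebraMap, map_zero, Algebra.commutes, sub_self]
    | add p q hp hq =>
      rw [map_add, map_add, map_add, mul_add, add_mul, add_sub_add_comm, hp, hq]
    | mul_X p l hp =>
      have h3 : UniversalEnvelopingAlgebra.ι ℂ (b (Sum.inr i)) * ev (X l) -
          ev (X l) * UniversalEnvelopingAlgebra.ι ℂ (b (Sum.inr i)) = ev (DD b i (X l)) := by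
        rw [hev, hbr, D_X, hlin]
        exact congrArg _ (decompV V b hb _ (hmem i _ (hb.1 l)))
      rw [Derivation.leibniz, map_add, smul_eq_mul, smul_eq_mul, map_mul, map_mul, map_mul, ← h3,
        ← hp]
      have h4 := hevc (X l) (DD b i p)
      rw [← hp] at h4
      rw [h4]
      noncomm_ring
  · intro i j
    rw [hbr]
    conv_lhs => rw [decomp b ⁅b (Sum.inr i), b (Sum.inr j)⁆]
    rw [map_add, add_comm]
    congr 1
    · rw [map_sum]
      refine Finset.sum_congr rfl fun k _ => ?_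
      rw [map_smul]
      rfl
    · have h5 : bb b i j = lin b ⁅b (Sum.inr i), b (Sum.inr j)⁆ := rfl
      rw [h5, hlin]
  · intro i j φ
    have h6 : ⁅DD b i, DD b j⁆ = ∑ k, cc b i j k • DD b k := by
      refine MvPolynomial.derivation_ext fun l => ?_
      rw [Derivation.commutator_apply, D_X, D_X, D_lin V b hb i _ (hmem j _ (hb.1 l)),
        D_lin V b hb j _ (hmem i _ (hb.1 l)), ← lin_sub]
      have h7 : (∑ k, cc b i j k • DD b k) (X l) = ∑ k, cc b i j k • (DD b k (X l)) := by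
        rw [der_sum]
        rfl
      rw [h7]
      have h8 : ∀ k, cc b i j k • (DD b k (X l)) =
          lin b ⁅cc b i j k • b (Sum.inr k), b (Sum.inl l)⁆ := by
        intro k
        rw [D_X, smul_lie, lin_smul]
      rw [Finset.sum_congr rfl fun k _ => h8 k, ← lin_sum]
      congr 1
      have h10 : ⁅b (Sum.inr i), ⁅b (Sum.inr j), b (Sum.inl l)⁆⁆ -
          ⁅b (Sum.inr j), ⁅b (Sum.inr i), b (Sum.inl l)⁆⁆ =
          ⁅⁅b (Sum.inr i), b (Sum.inr j)⁆, b (Sum.inl l)⁆ := (lie_lie _ _ _).symm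
      rw [h10]
      conv_lhs => rw [decomp b ⁅b (Sum.inr i), b (Sum.inr j)⁆]
      rw [add_lie, sum_lie, sum_lie]
      have h11 : ∑ m, ⁅b.repr ⁅b (Sum.inr i), b (Sum.inr j)⁆ (Sum.inl m) • b (Sum.inl m),
          b (Sum.inl l)⁆ = 0 := by
        refine Finset.sum_eq_zero fun m _ => ?_
        rw [smul_lie, hV _ (hb.1 m) _ (hb.1 l), smul_zero]
      rw [h11, zero_add]
      rfl
    have h9 := congrArg (fun d : Derivation ℂ (MvPolynomial σ ℂ) (MvPolynomial σ ℂ) => d φ) h6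
    simp only [Derivation.commutator_apply] at h9
    rw [h9, der_sum]
    rfl

end Pool.MFQ
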