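import Pool.Agent.H51.MFQ.S1

/-!
# Board mfq (MP_84bfea_al), row TPO: Taylor coefficients of functions which are affine along `T`
-/

set_option autoImplicit false

open Module

namespace Pool.MFQ

namespace TPOaux

open MvPolynomial

section

variable {σ τ : Type}

/-- The part of a vector in the `σ` coordinates. -/
def base (t : σ ⊕ τ → ℂ) : σ ⊕ τ → ℂ := Sum.elim (fun l => t (Sum.inl l)) (fun _ => 0)

/-- Restriction of a polynomial to the `σ` coordinates. -/
noncomputable def res (p : MvPolynomial (σ ⊕ τ) ℂ) : MvPolynomial σ ℂ :=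
  aeval (Sum.elim X (fun _ => 0)) p

theorem res_hom (p : MvPolynomial (σ ⊕ τ) ℂ) (k : ℕ) (hp : p.IsHomogeneous k) :
    (res p).IsHomogeneous k := by
  have h := hp.aeval (Sum.elim (X : σ → MvPolynomial σ ℂ) (fun _ : τ => 0)) (n := 1) (by
    intro i
    cases i with
    | inl l => exact isHomogeneous_X ℂ l
    | inr i => exact isHomogeneous_zero σ ℂ 1)
  rw [one_mul] at h
  exact h

theorem res_eval (p : MvPolynomial (σ ⊕ τ) ℂ) (t : σ ⊕ τ → ℂ) :
    eval (fun l => t (Sum.inl l)) (res p) = eval (base t) p := by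
  have h : ∀ g : σ ⊕ τ → MvPolynomial σ ℂ, eval (fun l => t (Sum.inl l)) (aeval g p) =
      eval (fun i => eval (fun l => t (Sum.inl l)) (g i)) p := by
    intro g
    rw [map_aeval]
    congr 1
    ext r
    · simp
    · simp
  unfold res
  rw [h]
  congr 2
  funext i
  unfold base
  cases i with
  | inl l =>
    show eval _ (X l) = t (Sum.inl l)
    rw [eval_X]
  | inr i =>
    show eval _ (0 : MvPolynomial σ ℂ) = 0
    rw [map_zero]

theorem der_id_mul (k : ℕ) (hk : 1 ≤ k) (h : ℂ → ℂ) (hh : AnalyticAt ℂ h 0) :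
    iteratedDeriv k (fun s : ℂ => s * h s) 0 = k * iteratedDeriv (k - 1) h 0 := by
  have h1 : ContDiffAt ℂ k (fun s : ℂ => s) 0 := contDiffAt_id
  rw [iteratedDeriv_fun_mul h1 hh.contDiffAt]
  rw [Finset.sum_eq_single 1]
  · rw [iteratedDeriv_fun_id_zero, if_pos rfl, Nat.choose_one_right, mul_one]
  · intro b hb hb1
    rw [iteratedDeriv_fun_id_zero, if_neg hb1, mul_zero, zero_mul]
  · intro hb
    exact absurd (Finset.mem_range.mpr (by omega)) hb

end

/-- The restriction of an analytic function to a line is analytic. -/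
theorem an_line {E : Type} [NormedAddCommGroup E] [NormedSpace ℂ E] (a v : E) (f : E → ℂ)
    (hf : AnalyticAt ℂ f a) : AnalyticAt ℂ (fun s : ℂ => f (a + s • v)) 0 := by
  have h1 : AnalyticAt ℂ (fun s : ℂ => a + s • v) 0 :=
    analyticAt_const.add (analyticAt_id.smul analyticAt_const)
  have h2 : AnalyticAt ℂ f ((fun s : ℂ => a + s • v) 0) := by
    have h3 : (fun s : ℂ => a + s • v) 0 = a := by
      show a + (0 : ℂ) • v = a
      rw [zero_smul, add_zero]
    rw [h3]
    exact hf
  exact AnalyticAt.fun_comp (g := f) (f := fun s : ℂ => a + s • v) h2 h1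

theorem tend_line {E : Type} [NormedAddCommGroup E] [NormedSpace ℂ E] (a v : E) :
    Filter.Tendsto (fun s : ℂ => a + s • v) (nhds 0) (nhds a) := by
  have h1 : Continuous (fun s : ℂ => a + s • v) :=
    continuous_const.add (continuous_id.smul continuous_const)
  have h2 := h1.tendsto 0
  have h3 : a + (0 : ℂ) • v = a := by rw [zero_smul, add_zero]
  rw [h3] at h2
  exact h2

end TPOaux

open TPOaux MvPolynomial in
theorem t_tpo (h1 : TPHStmt) : TPOStmt := by
  classical
  intro σ τ _ _ a f k hk hf hL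
  let e : τ → (σ ⊕ τ → ℂ) := fun i => Pi.single (Sum.inr i) 1
  have heT : ∀ i, e i ∈ TT σ τ := by
    intro i l
    show (Pi.single (Sum.inr i) (1 : ℂ) : σ ⊕ τ → ℂ) (Sum.inl l) = 0
    rw [Pi.single_eq_of_ne (by simp)]
  let g : τ → (σ ⊕ τ → ℂ) → ℂ := fun i ξ => fderiv ℂ f ξ (e i)
  have hg : ∀ i, AnalyticAt ℂ (g i) a := by
    intro i
    have h2 : AnalyticAt ℂ (fderiv ℂ f) a := hf.fderiv
    exact AnalyticAt.fun_comp (g := fun L : (σ ⊕ τ → ℂ) →L[ℂ] ℂ => L (e i))
      ((ContinuousLinearMap.apply ℂ ℂ (e i)).analyticAt _) h2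
  obtain ⟨p, hp, hpe⟩ := h1 (σ ⊕ τ) a f k hf
  choose q hq hqe using fun i => h1 (σ ⊕ τ) a (g i) (k - 1) (hg i)
  refine ⟨(res p, fun i => res (q i)), ⟨res_hom p k hp, fun i => res_hom (q i) _ (hq i)⟩, ?_⟩
  funext t
  have hev : evT (res p, fun i => res (q i)) t =
      tayE a f k (base t) + ∑ i, tayE a (g i) (k - 1) (base t) * t (Sum.inr i) := by
    unfold evT
    show eval _ (res p) + ∑ i, eval _ (res (q i)) * t (Sum.inr i) = _
    rw [res_eval, ← hpe]
    congr 1
    refine Finset.sum_congr rfl fun i _ => ?_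
    rw [res_eval, ← hqe]
  rw [hev]
  -- the decomposition of `t`
  have hdec : ∀ s : ℂ, a + s • t = (a + s • base t) + s • ∑ i, t (Sum.inr i) • e i := by
    intro s
    rw [add_assoc, ← smul_add]
    congr 2
    funext j
    rw [Pi.add_apply, Finset.sum_apply]
    cases j with
    | inl l =>
      have h2 : ∑ i, (t (Sum.inr i) • e i) (Sum.inl l) = 0 := by
        refine Finset.sum_eq_zero fun i _ => ?_
        rw [Pi.smul_apply, heT i l, smul_zero]
      rw [h2, add_zero]
      rfl
    | inr j =>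
      have h2 : ∑ i, (t (Sum.inr i) • e i) (Sum.inr j) = t (Sum.inr j) := by
        rw [Finset.sum_eq_single j]
        · rw [Pi.smul_apply]
          show t (Sum.inr j) • (Pi.single (Sum.inr j) (1 : ℂ) : σ ⊕ τ → ℂ) (Sum.inr j) = _
          rw [Pi.single_eq_same, smul_eq_mul, mul_one]
        · intro i _ hij
          rw [Pi.smul_apply]
          show t (Sum.inr i) • (Pi.single (Sum.inr i) (1 : ℂ) : σ ⊕ τ → ℂ) (Sum.inr j) = _
          rw [Pi.single_eq_of_ne (by
            intro h3
            exact hij (Sum.inr_injective h3.symm)), smul_zero]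
        · intro h3
          exact absurd (Finset.mem_univ j) h3
      rw [h2]
      show t (Sum.inr j) = 0 + t (Sum.inr j)
      rw [zero_add]
  -- the local expansion
  have hloc : ∀ᶠ ξ in nhds a, ∀ η ∈ TT σ τ, f (ξ + η) = f ξ + fderiv ℂ f ξ η := by
    have han := hf.eventually_analyticAt
    filter_upwards [hL, han] with ξ hξ hξa η hη
    obtain ⟨L, hL2⟩ := hξ
    have h2 := hL2 ⟨η, hη⟩
    have h3 : HasDerivAt (fun s : ℂ => f (ξ + s • η)) (fderiv ℂ f ξ η) 0 := by
      have h4 : HasDerivAt (fun s : ℂ => ξ + s • η) η 0 := by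
        have h5 : HasDerivAt (fun s : ℂ => s • η) ((1 : ℂ) • η) 0 :=
          (hasDerivAt_id (0 : ℂ)).smul_const η
        rw [one_smul] at h5
        exact h5.const_add ξ
      have h6 : HasFDerivAt f (fderiv ℂ f ξ) ((fun s : ℂ => ξ + s • η) 0) := by
        have h7 : (fun s : ℂ => ξ + s • η) 0 = ξ := by
          show ξ + (0 : ℂ) • η = ξ
          rw [zero_smul, add_zero]
        rw [h7]
        exact hξa.differentiableAt.hasFDerivAt
      exact h6.comp_hasDerivAt (0 : ℂ) h4
    have h8 : HasDerivAt (fun s : ℂ => f (ξ + s • η)) (L ⟨η, hη⟩) 0 := by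
      have h9 : (fun s : ℂ => f (ξ + s • η)) = fun s : ℂ => f ξ + s * L ⟨η, hη⟩ := by
        funext s
        have h10 := hL2 (s • ⟨η, hη⟩)
        rw [map_smul, smul_eq_mul] at h10
        exact h10
      rw [h9]
      have h11 : HasDerivAt (fun s : ℂ => s * L ⟨η, hη⟩) (1 * L ⟨η, hη⟩) 0 :=
        (hasDerivAt_id (0 : ℂ)).mul_const _
      rw [one_mul] at h11
      exact h11.const_add _
    rw [h3.unique h8]
    exact h2
  have hnear : (fun s : ℂ => f (a + s • t)) =ᶠ[nhds 0] fun s : ℂ =>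
      f (a + s • base t) + s * ∑ i, t (Sum.inr i) * g i (a + s • base t) := by
    have h2 := (tend_line a (base t)).eventually hloc
    filter_upwards [h2] with s hs
    have hmem : s • ∑ i, t (Sum.inr i) • e i ∈ TT σ τ :=
      (TT σ τ).smul_mem _ ((TT σ τ).sum_mem fun i _ => (TT σ τ).smul_mem _ (heT i))
    rw [hdec s, hs _ hmem, map_smul, map_sum, smul_eq_mul]
    congr 2
    refine Finset.sum_congr rfl fun i _ => ?_
    rw [map_smul, smul_eq_mul]
  have hA1 : AnalyticAt ℂ (fun s : ℂ => f (a + s • base t)) 0 := an_line a _ f hf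
  have hA2 : ∀ i, AnalyticAt ℂ (fun s : ℂ => g i (a + s • base t)) 0 :=
    fun i => an_line a _ (g i) (hg i)
  have hA3 : AnalyticAt ℂ (fun s : ℂ => ∑ i, t (Sum.inr i) * g i (a + s • base t)) 0 := by
    exact Finset.analyticAt_fun_sum _ fun i _ => analyticAt_const.mul (hA2 i)
  have hA4 : AnalyticAt ℂ
      (fun s : ℂ => s * ∑ i, t (Sum.inr i) * g i (a + s • base t)) 0 := analyticAt_id.mul hA3
  have hA5 : ∀ i, AnalyticAt ℂ (fun s : ℂ => t (Sum.inr i) * g i (a + s • base t)) 0 :=
    fun i => analyticAt_const.mul (hA2 i)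
  unfold tayE
  rw [hnear.iteratedDeriv_eq k, iteratedDeriv_fun_add hA1.contDiffAt
    hA4.contDiffAt, der_id_mul k hk _ hA3, iteratedDeriv_fun_sum
    (fun i _ => (hA5 i).contDiffAt), mul_add]
  congr 1
  rw [Finset.mul_sum, Finset.mul_sum]
  refine Finset.sum_congr rfl fun i _ => ?_
  rw [iteratedDeriv_const_mul_field]
  have hfac : ((k.factorial : ℕ) : ℂ) = k * (((k - 1).factorial : ℕ) : ℂ) := by
    obtain ⟨n, rfl⟩ : ∃ n, k = n + 1 := ⟨k - 1, by omega⟩
    rw [Nat.factorial_succ, Nat.cast_mul]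
    rfl
  have hk0 : (k : ℂ) ≠ 0 := by
    have : k ≠ 0 := by omega
    exact_mod_cast this
  have hf0 : (((k - 1).factorial : ℕ) : ℂ) ≠ 0 := by
    exact_mod_cast Nat.factorial_ne_zero (k - 1)
  rw [hfac]
  field_simp

end Pool.MFQ
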