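import Pool.Agent.H51.MFQ.S1

/-!
# Board mfq (MP_84bfea_al), row SEM: genericity is an open condition
-/

set_option autoImplicit false

open Module

namespace Pool.MFQ

namespace SEMaux

/-- Upper semicontinuity of the dimension of the kernel. -/
theorem usc {E κ : Type} [AddCommGroup E] [Module ℂ E] [FiniteDimensional ℂ E] [Fintype κ]
    (M : (κ → ℂ) → E →ₗ[ℂ] (κ → ℂ)) (hM : ∀ x, Continuous fun t => M t x) (W : Submodule ℂ E)
    (a : κ → ℂ) : ∀ᶠ t in nhds a,
      finrank ℂ (LinearMap.ker (M t) ⊓ W : Submodule ℂ E) ≤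
        finrank ℂ (LinearMap.ker (M a) ⊓ W : Submodule ℂ E) := by
  classical
  have hker : ∀ t, finrank ℂ (LinearMap.ker (M t ∘ₗ W.subtype)) =
      finrank ℂ (LinearMap.ker (M t) ⊓ W : Submodule ℂ E) := by
    intro t
    have h1 : Submodule.map W.subtype (LinearMap.ker (M t ∘ₗ W.subtype)) =
        LinearMap.ker (M t) ⊓ W := by
      rw [LinearMap.ker_comp, Submodule.map_comap_subtype, inf_comm]
    rw [← h1, Submodule.finrank_map_subtype_eq]
  have hrn : ∀ t, finrank ℂ (LinearMap.range (M t ∘ₗ W.subtype)) +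
      finrank ℂ (LinearMap.ker (M t) ⊓ W : Submodule ℂ E) = finrank ℂ W := by
    intro t
    rw [← hker]
    exact LinearMap.finrank_range_add_finrank_ker _
  have hx : ∀ i : Fin (finrank ℂ (LinearMap.range (M a ∘ₗ W.subtype))), ∃ x : W,
      (M a ∘ₗ W.subtype) x =
        (finBasis ℂ (LinearMap.range (M a ∘ₗ W.subtype)) i : κ → ℂ) := by
    intro i
    exact (finBasis ℂ (LinearMap.range (M a ∘ₗ W.subtype)) i).2
  choose x hx using hx
  have hli : LinearIndependent ℂ (fun i => M a (x i : E)) := by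
    have h1 : LinearIndependent ℂ (fun i =>
        (finBasis ℂ (LinearMap.range (M a ∘ₗ W.subtype)) i : κ → ℂ)) :=
      (finBasis ℂ (LinearMap.range (M a ∘ₗ W.subtype))).linearIndependent.map'
        (Submodule.subtype _) (Submodule.ker_subtype _)
    have h2 : (fun i => M a (x i : E)) = fun i =>
        (finBasis ℂ (LinearMap.range (M a ∘ₗ W.subtype)) i : κ → ℂ) := by
      funext i
      exact hx i
    rw [h2]
    exact h1
  have hopen : IsOpen {t : κ → ℂ | LinearIndependent ℂ (fun i => M t (x i : E))} := by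
    have h1 : Continuous (fun t : κ → ℂ => (fun i => M t (x i : E))) :=
      continuous_pi fun i => hM _
    exact (isOpen_setOfPred_linearIndependent (𝕜 := ℂ) (E := κ → ℂ)).preimage h1
  filter_upwards [hopen.mem_nhds hli] with t ht
  have h2 : finrank ℂ (LinearMap.range (M a ∘ₗ W.subtype)) ≤
      finrank ℂ (LinearMap.range (M t ∘ₗ W.subtype)) := by
    have h3 : Submodule.span ℂ (Set.range fun i => M t (x i : E)) ≤
        LinearMap.range (M t ∘ₗ W.subtype) := by
      rw [Submodule.span_le]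
      rintro _ ⟨i, rfl⟩
      exact ⟨x i, rfl⟩
    have h4 := finrank_span_eq_card (R := ℂ) ht
    rw [Fintype.card_fin] at h4
    rw [← h4]
    exact Submodule.finrank_mono h3
  have h5 := hrn t
  have h6 := hrn a
  omega

end SEMaux

open SEMaux in
theorem t_sem : SEMStmt := by
  intro 𝔤 _ _ V κ _ b a ha
  have : FiniteDimensional ℂ 𝔤 := b.finiteDimensional_of_finite
  let M : (κ → ℂ) → 𝔤 →ₗ[ℂ] (κ → ℂ) := fun t =>
    LinearMap.pi fun j => (dualC b t) ∘ₗ (-(LieAlgebra.ad ℂ 𝔤 (b j) : 𝔤 →ₗ[ℂ] 𝔤))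
  have hMv : ∀ t x j, M t x j = dualC b t ⁅x, b j⁆ := by
    intro t x j
    show dualC b t (-(⁅b j, x⁆)) = _
    rw [lie_skew]
  have hdual : ∀ (t : κ → ℂ) (x : 𝔤), dualC b t x = ∑ k, b.repr x k * t k := by
    intro t x
    unfold dualC
    rw [Basis.constr_apply_fintype]
    rfl
  have hM : ∀ x, Continuous fun t => M t x := by
    intro x
    refine continuous_pi fun j => ?_
    have h1 : (fun t => M t x j) = fun t : κ → ℂ => ∑ k, b.repr ⁅x, b j⁆ k * t k := by
      funext t
      rw [hMv, hdual]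
    rw [h1]
    exact continuous_finsetSum _ fun k _ => continuous_const.mul (continuous_apply k)
  have hker : ∀ t, LinearMap.ker (M t) = stab (dualC b t) := by
    intro t
    ext x
    rw [LinearMap.mem_ker]
    constructor
    · intro h y
      have h1 : ∀ j, dualC b t ⁅x, b j⁆ = 0 := by
        intro j
        rw [← hMv, h]
        rfl
      have h2 : ⁅x, y⁆ = ∑ j, b.repr y j • ⁅x, b j⁆ := by
        conv_lhs => rw [← b.sum_repr y]
        rw [lie_sum]
        refine Finset.sum_congr rfl fun j _ => ?_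
        rw [lie_smul]
      rw [h2, map_sum]
      refine Finset.sum_eq_zero fun j _ => ?_
      rw [map_smul, h1, smul_zero]
    · intro h
      funext j
      rw [hMv]
      exact h (b j)
  have h1 := usc M hM ⊤ a
  have h2 := usc M hM V.toSubmodule a
  filter_upwards [h1, h2] with t ht1 ht2
  rw [hker, hker, inf_top_eq, inf_top_eq] at ht1
  rw [hker, hker] at ht2
  exact ⟨fun ξ => ht1.trans (ha.1 ξ), fun ξ => ht2.trans (ha.2 ξ)⟩

end Pool.MFQ
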